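import Pool.Agent.H93.BL.Targets

/-!
# G5A: the hit side is locally constant, start points inside
-/

namespace Pool.Agent.H42.BL.G5A

open MeasureTheory Set Pool.Agent.H93.BL

theorem g5a (hG1 : T_G1) : T_G5a := by
  intro ι _ P y v j t hy hH
  obtain ⟨ht, hr, hx, hv⟩ := hH
  obtain ⟨ρ, hρ, hg1, hg2, -, -⟩ := hG1 ι P j _ hx
  set x := y + (t : ℂ) * v with hxdef
  set n := P.n j with hn
  have hn1 : ‖n‖ = 1 := P.norm_n j
  have hip : ∀ a : ℂ, |ip a n| ≤ ‖a‖ := by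
    intro a
    have := abs_ip_le a n
    rwa [hn1, mul_one] at this
  obtain ⟨c, hc⟩ : ∃ c, c = - ip v n := ⟨_, rfl⟩
  have hc0 : 0 < c := by rw [hc]; linarith
  obtain ⟨V, hV⟩ : ∃ V, V = ‖v‖ + 1 := ⟨_, rfl⟩
  have hV1 : 1 ≤ V := by rw [hV]; linarith [norm_nonneg v]
  obtain ⟨h, hh⟩ : ∃ h, h = min (t / 2) (ρ / (6 * V)) := ⟨_, rfl⟩
  have hh0 : 0 < h := by
    rw [hh]
    exact lt_min (by linarith) (by positivity)
  have hht : h ≤ t / 2 := by rw [hh]; exact min_le_left _ _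
  have hhρ : 6 * V * h ≤ ρ := by
    have : h ≤ ρ / (6 * V) := by rw [hh]; exact min_le_right _ _
    rw [le_div_iff₀ (by positivity)] at this
    linarith
  obtain ⟨r₁, hr₁⟩ : ∃ r₁, r₁ = t - h := ⟨_, rfl⟩
  have hr₁0 : 0 < r₁ := by rw [hr₁]; linarith
  have hr₁t : r₁ < t := by rw [hr₁]; linarith
  -- the compact segment
  have hcomp : IsCompact ((fun r : ℝ => y + (r : ℂ) * v) '' Icc 0 r₁) :=
    isCompact_Icc.image (by fun_prop)
  have hsub : ((fun r : ℝ => y + (r : ℂ) * v) '' Icc 0 r₁) ⊆ P.Ω := by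
    rintro _ ⟨r, hr', rfl⟩
    rcases eq_or_lt_of_le hr'.1 with h0 | h0
    · rw [← h0]
      simpa using hy
    · exact hr r ⟨h0, hr'.2.trans_lt hr₁t⟩
  obtain ⟨δ, hδ, hthick⟩ := hcomp.exists_thickening_subset_open P.isOpen hsub
  obtain ⟨ε, hε⟩ : ∃ ε, ε = min (min (δ / (1 + t)) (h * c / 2 / (1 + t)))
      (min (h / (1 + t)) (c / 2)) := ⟨_, rfl⟩
  have ht1 : 0 < 1 + t := by linarith
  have hε0 : 0 < ε := by
    rw [hε]
    exact lt_min (lt_min (by positivity) (by positivity)) (lt_min (by positivity) (by positivity))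
  have hεδ : (1 + t) * ε ≤ δ := by
    have : ε ≤ δ / (1 + t) := by
      rw [hε]; exact (min_le_left _ _).trans (min_le_left _ _)
    rw [le_div_iff₀ ht1] at this
    linarith
  have hεhc : (1 + t) * ε ≤ h * c / 2 := by
    have : ε ≤ h * c / 2 / (1 + t) := by
      rw [hε]; exact (min_le_left _ _).trans (min_le_right _ _)
    rw [le_div_iff₀ ht1] at this
    linarith
  have hεh : (1 + t) * ε ≤ h := by
    have : ε ≤ h / (1 + t) := by
      rw [hε]; exact (min_le_right _ _).trans (min_le_left _ _)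
    rw [le_div_iff₀ ht1] at this
    linarith
  have hεc : ε ≤ c / 2 := by
    rw [hε]; exact (min_le_right _ _).trans (min_le_right _ _)
  have hε1 : ε ≤ 1 := by
    refine le_of_mul_le_mul_left (a := 1 + t) ?_ ht1
    linarith
  refine ⟨ε, hε0, ?_⟩
  intro y' v' hy' hv'
  rw [dist_eq_norm] at hy' hv'
  -- distances along the ray
  have hdist : ∀ r : ℝ, 0 ≤ r → r ≤ t →
      ‖(y' + (r : ℂ) * v') - (y + (r : ℂ) * v)‖ < (1 + t) * ε := by
    intro r h0 h1
    have e : (y' + (r : ℂ) * v') - (y + (r : ℂ) * v) = (y' - y) + (r : ℂ) * (v' - v) := by ring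
    rw [e]
    calc ‖(y' - y) + (r : ℂ) * (v' - v)‖ ≤ ‖y' - y‖ + ‖(r : ℂ) * (v' - v)‖ := norm_add_le _ _
      _ = ‖y' - y‖ + r * ‖v' - v‖ := by
          rw [norm_mul, Complex.norm_real, Real.norm_of_nonneg h0]
      _ < ε + t * ε := by
          have : r * ‖v' - v‖ ≤ t * ε := mul_le_mul h1 hv'.le (norm_nonneg _) ht.le
          linarith
      _ = (1 + t) * ε := by ring
  obtain ⟨z', hz'⟩ : ∃ z', z' = y' + (r₁ : ℂ) * v' := ⟨_, rfl⟩
  have hz1 : ‖z' - (y + (r₁ : ℂ) * v)‖ < (1 + t) * ε := by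
    rw [hz']
    exact hdist r₁ hr₁0.le hr₁t.le
  -- the value of `ip (z' - x) n`
  have hzx : z' - x = (z' - (y + (r₁ : ℂ) * v)) + ((-h : ℝ) : ℂ) * v := by
    rw [hxdef, hr₁]
    push_cast
    ring
  have hipz : ip (z' - x) n = ip (z' - (y + (r₁ : ℂ) * v)) n + h * c := by
    rw [hzx, ip_add_left, ip_smul_left, hc]
    ring
  have hA := abs_le.1 ((hip (z' - (y + (r₁ : ℂ) * v))).trans hz1.le)
  have hlow : h * c / 2 ≤ ip (z' - x) n := by rw [hipz]; linarith [hA.1]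
  have hup : ip (z' - x) n ≤ 3 * (h * c) / 2 := by rw [hipz]; linarith [hA.2]
  have hhc : 0 < h * c := mul_pos hh0 hc0
  have hipv : ip v' n ≤ -(c / 2) := by
    have e : ip v' n = ip (v' - v) n + ip v n := by rw [ip_sub_left]; ring
    have h2 := abs_le.1 ((hip (v' - v)).trans hv'.le)
    rw [e]
    linarith [h2.2]
  have hd0 : 0 < -ip v' n := by linarith
  obtain ⟨τ, hτ⟩ : ∃ τ, τ = ip (z' - x) n / (-ip v' n) := ⟨_, rfl⟩
  have hτ0 : 0 < τ := by rw [hτ]; exact div_pos (by linarith) hd0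
  have hτe : τ * ip v' n = - ip (z' - x) n := by
    rw [hτ, div_mul_eq_mul_div, div_eq_iff hd0.ne']
    ring
  have hτ3 : τ ≤ 3 * h := by
    rw [hτ, div_le_iff₀ hd0]
    have : 3 * h * (c / 2) ≤ 3 * h * (-ip v' n) :=
      mul_le_mul_of_nonneg_left (by linarith) (by linarith)
    linarith
  have hv'V : ‖v'‖ ≤ V := by
    have : ‖v'‖ ≤ ‖v' - v‖ + ‖v‖ := by
      have := norm_add_le (v' - v) v
      rwa [sub_add_cancel] at this
    rw [hV]
    linarith
  have hzxn : ‖z' - x‖ ≤ h + h * V := by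
    rw [hzx]
    refine (norm_add_le _ _).trans ?_
    rw [norm_mul, Complex.norm_real, norm_neg, Real.norm_of_nonneg hh0.le]
    have : h * ‖v‖ ≤ h * V := mul_le_mul_of_nonneg_left (by rw [hV]; linarith) hh0.le
    linarith
  have hdx : ∀ r : ℝ, 0 ≤ r → r ≤ τ → dist (z' + (r : ℂ) * v') x < ρ := by
    intro r h0 h1
    rw [dist_eq_norm]
    have e : z' + (r : ℂ) * v' - x = (z' - x) + (r : ℂ) * v' := by ring
    rw [e]
    have h3 : ‖(r : ℂ) * v'‖ ≤ 3 * h * V := by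
      rw [norm_mul, Complex.norm_real, Real.norm_of_nonneg h0]
      exact mul_le_mul (h1.trans hτ3) hv'V (norm_nonneg _) (by linarith)
    have h4 : h ≤ h * V := le_mul_of_one_le_right hh0.le hV1
    have h5 : 0 < h * V := hh0.trans_le h4
    calc ‖(z' - x) + (r : ℂ) * v'‖ ≤ ‖z' - x‖ + ‖(r : ℂ) * v'‖ := norm_add_le _ _
      _ ≤ (h + h * V) + 3 * h * V := add_le_add hzxn h3
      _ < 6 * V * h := by linarith
      _ ≤ ρ := hhρ
  have hipr : ∀ r : ℝ, ip (z' + (r : ℂ) * v' - x) n = ip (z' - x) n + r * ip v' n := by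
    intro r
    rw [show z' + (r : ℂ) * v' - x = (z' - x) + (r : ℂ) * v' by ring, ip_add_left, ip_smul_left]
  refine ⟨r₁ + τ, by linarith, ?_, ?_, by linarith⟩
  · intro r hr'
    rcases le_or_gt r r₁ with hle | hgt
    · apply hthick
      rw [Metric.mem_thickening_iff]
      refine ⟨y + (r : ℂ) * v, ⟨r, ⟨hr'.1.le, hle⟩, rfl⟩, ?_⟩
      rw [dist_eq_norm]
      exact (hdist r hr'.1.le (hle.trans hr₁t.le)).trans_le hεδ
    · have e : y' + (r : ℂ) * v' = z' + ((r - r₁ : ℝ) : ℂ) * v' := by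
        rw [hz']
        push_cast
        ring
      rw [e]
      have h1 : r - r₁ < τ := by linarith [hr'.2]
      refine hg1 _ (hdx _ (by linarith) h1.le) ?_
      rw [hipr]
      have h2 : (r - r₁) * (-ip v' n) < τ * (-ip v' n) := mul_lt_mul_of_pos_right h1 hd0
      linarith
  · have e : y' + ((r₁ + τ : ℝ) : ℂ) * v' = z' + (τ : ℂ) * v' := by
      rw [hz']
      push_cast
      ring
    rw [e]
    refine hg2 _ (hdx τ hτ0.le le_rfl) ?_
    rw [hipr, hτe]
    ring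

end Pool.Agent.H42.BL.G5A
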