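import Pool.Agent.H93.BL.Targets

/-!
# L4: the exit and entrance sets are open
-/

namespace Pool.Agent.H42.BL.L4

open MeasureTheory Set Pool.Agent.H93.BL

theorem aux (hL1 : T_L1) (hG : T_G5b) (ι : Type) [Finite ι] (P : Polygon ι) (E : Set ι)
    (C : Set ℂ) (k : P.Leg E C) (t : ℝ) (ht : P.la E C k < t ∧ t < P.lb E C k) (w : ℂ)
    (hw : 0 < ip w (P.n k.1.1)) (j : ι) (τ : ℝ) (h : P.Hit (P.lpt E C k t) w j τ) :
    ∃ ε > (0 : ℝ), ∀ δ, |δ| < ε → (P.la E C k < t + δ ∧ t + δ < P.lb E C k) ∧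
      ∃ τ', P.Hit (P.lpt E C k (t + δ)) w j τ' := by
  obtain ⟨-, h2, -, h4⟩ := hL1 ι P E C k
  have hβ : 0 < ip k.1.2 (P.n k.1.1) := k.2.2.2.2.2
  obtain ⟨ε₁, hε₁, hG'⟩ := hG ι P k.1.1 (P.lpt E C k t) w j τ ((h2 t).1 ht) hw h
  refine ⟨min (min (t - P.la E C k) (P.lb E C k - t)) (ip k.1.2 (P.n k.1.1) * ε₁), ?_, ?_⟩
  · exact lt_min (lt_min (by linarith [ht.1]) (by linarith [ht.2])) (mul_pos hβ hε₁)
  · intro δ hδ
    have h5 := hδ.trans_le (min_le_left _ _)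
    have h6 := h5.trans_le (min_le_left _ _)
    have h7 := h5.trans_le (min_le_right _ _)
    have h8 := hδ.trans_le (min_le_right _ _)
    have h9 := neg_abs_le δ
    have h10 := le_abs_self δ
    have hin : P.la E C k < t + δ ∧ t + δ < P.lb E C k := ⟨by linarith, by linarith⟩
    refine ⟨hin, hG' _ ((h2 _).1 hin) w ?_ ?_⟩
    · rw [h4, add_sub_cancel_left, div_lt_iff₀ hβ, mul_comm]
      exact h8
    · rw [dist_self]
      exact hε₁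

theorem l4 (hL1 : T_L1) (hG : T_G5b) : T_L4 := by
  intro ι _ P E C k t
  have hβ : 0 < ip k.1.2 (P.n k.1.1) := k.2.2.2.2.2
  constructor
  · rintro ⟨ht, j, τ, hH, hj⟩
    obtain ⟨ε, hε, h⟩ := aux hL1 hG ι P E C k t ht k.1.2 hβ j τ hH
    refine ⟨ε, hε, fun δ hδ => ?_⟩
    obtain ⟨hin, τ', hτ'⟩ := h δ hδ
    exact ⟨hin, j, τ', hτ', hj⟩
  · rintro ⟨ht, j, τ, hH, hj⟩
    have hw : 0 < ip (-P.refl k.1.1 k.1.2) (P.n k.1.1) := by
      rw [ip_neg_left, P.ip_refl_n, neg_neg]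
      exact hβ
    obtain ⟨ε, hε, h⟩ := aux hL1 hG ι P E C k t ht (-P.refl k.1.1 k.1.2) hw j τ hH
    refine ⟨ε, hε, fun δ hδ => ?_⟩
    obtain ⟨hin, τ', hτ'⟩ := h δ hδ
    exact ⟨hin, j, τ', hτ', hj⟩

end Pool.Agent.H42.BL.L4
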