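import Pool.Agent.H88.BL.Targets

/-!
# Row COS of the board `bll_modules`
-/

set_option autoImplicit false

namespace Pool.Agent.H42.BL

open Pool.Agent.H88.BL

theorem pf_COS : T_COS := by
  intro y
  have hu0 : 0 ≤ nd y := abs_nonneg _
  have hu1 : nd y ≤ 1 / 2 := abs_sub_round y
  have hpi := Real.pi_pos
  -- reduce to the distance
  have h1 : |Real.cos (Real.pi * y)| = |Real.cos (Real.pi * nd y)| := by
    have e1 : Real.cos (Real.pi * y - (round y : ℤ) * Real.pi) =
        (-1) ^ (round y : ℤ) * Real.cos (Real.pi * y) := Real.cos_sub_int_mul_pi _ _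
    have e2 : Real.pi * y - (round y : ℤ) * Real.pi = Real.pi * (y - round y) := by ring
    have e3 : |Real.cos (Real.pi * (y - round y))| = |Real.cos (Real.pi * y)| := by
      rw [← e2, e1, abs_mul, abs_zpow, abs_neg, abs_one, one_zpow, one_mul]
    rw [← e3]
    unfold nd
    rcases abs_cases (y - round y) with ⟨h, _⟩ | ⟨h, _⟩
    · rw [h]
    · rw [h, mul_neg, Real.cos_neg]
  rw [h1]
  set u := nd y with hu
  have h2 : 2 * u ≤ Real.sin (Real.pi * u) := by
    have h3 := Real.mul_le_sin (x := Real.pi * u) (by positivity) (by nlinarith)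
    have e : 2 / Real.pi * (Real.pi * u) = 2 * u := by
      field_simp
    rwa [e] at h3
  have h3 := Real.sin_sq_add_cos_sq (Real.pi * u)
  have h4 : (2 * u) ^ 2 ≤ Real.sin (Real.pi * u) ^ 2 :=
    pow_le_pow_left₀ (by positivity) h2 2
  have h5 : Real.cos (Real.pi * u) ^ 2 ≤ 1 - 4 * u ^ 2 := by nlinarith
  have h6 : 1 - 4 * u ^ 2 ≤ Real.exp (-(4 * u ^ 2)) := by
    have := Real.add_one_le_exp (-(4 * u ^ 2))
    linarith
  have h7 : Real.exp (-(4 * u ^ 2)) = Real.exp (-(2 * u ^ 2)) ^ 2 := by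
    rw [← Real.exp_nat_mul]
    congr 1
    push_cast
    ring
  apply abs_le_of_sq_le_sq _ (Real.exp_pos _).le
  rw [← h7]
  exact h5.trans h6

end Pool.Agent.H42.BL
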