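import Pool.Agent.H88.BL.Targets

/-!
# Row NDT of the board `bll_modules`
-/

set_option autoImplicit false

namespace Pool.Agent.H42.BL

open Pool.Agent.H88.BL

theorem pf_NDT : T_NDT := by
  constructor
  · intro x y
    unfold nd
    have h1 := round_le (x - y) (round x - round y)
    push_cast at h1
    refine h1.trans ?_
    have e : x - y - ((round x : ℝ) - (round y : ℝ)) = (x - round x) - (y - round y) := by ring
    rw [e]
    exact abs_sub _ _
  · intro z hz
    unfold nd
    apply le_antisymm
    · have h := round_le z 0
      simpa using h
    · by_cases h0 : round z = 0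
      · rw [h0]
        simp
      · have h1 : (1 : ℝ) ≤ |(round z : ℝ)| := by
          have h2 : (1 : ℤ) ≤ |round z| := Int.one_le_abs h0
          exact_mod_cast h2
        have h3 : |(round z : ℝ)| - |z| ≤ |(round z : ℝ) - z| := abs_sub_abs_le_abs_sub _ _
        rw [abs_sub_comm] at h3
        linarith

end Pool.Agent.H42.BL
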